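import Pool.Agent.W_92892c_h88f.Abs47
import Pool.Agent.W_92892c_h88f.SysT47
import Pool.Agent.W_92892c_h85.HandC

/-!
The exact formulas on a set of classes, from a family on a set of twists.
-/

open Filter Topology

namespace W92892cX

open PowerSeries MQV Pool.Agent.W_92892c_h88f

/-- The exact formulas for the elements of `H`. -/
structure ExactOn {D : Type*} [AddCommGroup D] (H : Set D) (R : PowerSeries ℂ) (lam : D → ℝ)
    (f : D → PowerSeries ℂ) (k : D → ℕ) : Prop where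
  odd : ∀ d ∈ H, ∀ j, Odd j → coeff j (f d * rescale (lam d : ℂ) (exp ℂ) * R) = 0
  zero : ∀ d ∈ H, coeff 0 (f d) = 1
  top : ∀ d ∈ H, coeff (k d) (f d) ≠ 0
  pair : ∀ a ∈ H, ∀ b ∈ H, a ≠ b →
    coeff (k a + k b) (f a * f b) = coeff (k a) (f a) * coeff (k b) (f b)
  four : ∀ a ∈ H, ∀ b ∈ H, ∀ c ∈ H, a ≠ b → a ≠ c → b ≠ c →
    coeff (k a + k b + k c + k (a + b + c)) (f a * f b * f c * f (a + b + c)) =
      coeff (k a) (f a) * coeff (k b) (f b) * coeff (k c) (f c) *
        coeff (k (a + b + c)) (f (a + b + c))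

theorem ExactOn.isType {D : Type*} [AddCommGroup D] {H : Set D} {R : PowerSeries ℂ} {lam : D → ℝ}
    {f : D → PowerSeries ℂ} {k : D → ℕ} (h : ExactOn H R lam f k) (hR : coeff 0 R = 1) (d : D)
    (hd : d ∈ H) : W92892c.IsType R⁻¹ ((-lam d : ℝ) : ℂ) (f d) := by
  have hRc : PowerSeries.constantCoeff R ≠ 0 := by
    rw [← coeff_zero_eq_constantCoeff_apply, hR]
    exact one_ne_zero
  refine ⟨f d * rescale (lam d : ℂ) (exp ℂ) * R, h.odd d hd, ?_, ?_⟩
  · rw [coeff_zero_eq_constantCoeff_apply, map_mul, map_mul, ← coeff_zero_eq_constantCoeff_apply,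
      ← coeff_zero_eq_constantCoeff_apply, ← coeff_zero_eq_constantCoeff_apply, h.zero d hd, hR,
      coeff_rescale, coeff_exp]
    simp
  · have h1 : rescale ((-lam d : ℝ) : ℂ) (exp ℂ) * rescale ((lam d : ℝ) : ℂ) (exp ℂ) = 1 := by
      rw [exp_mul_exp_eq_exp_add]
      push_cast
      rw [neg_add_cancel, rescale_zero]
      simp
    have h2 : R⁻¹ * R = 1 := by
      rw [mul_comm]
      exact PowerSeries.mul_inv_cancel _ hRc
    calc f d = f d * (rescale ((-lam d : ℝ) : ℂ) (exp ℂ) * rescale ((lam d : ℝ) : ℂ) (exp ℂ)) *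
          (R⁻¹ * R) := by rw [h1, h2, mul_one, mul_one]
      _ = _ := by ring

/-- From the formal formulas on `H`. -/
theorem exactOn_of {D : Type} [AddCommGroup D] {H : Set D} {R : PowerSeries ℂ}
    (hR : coeff 0 R = 1) (lam : D → ℝ) (r : D → ℕ) (f : D → PowerSeries ℂ)
    (hH : ∀ a ∈ H, ∀ b ∈ H, ∀ c ∈ H, a + b + c ∈ H)
    (hpar : ∀ a ∈ H, ∀ i j : ℕ, Odd i → Even j → coeff i (f a * rescale (lam a : ℂ) (exp ℂ) * R) *
      coeff j (f a * rescale (lam a : ℂ) (exp ℂ) * R) = 0)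
    (h1 : ∀ a ∈ H, coeff (r a) (f a) = 1)
    (hpair : ∀ a ∈ H, ∀ b ∈ H, a ≠ b → coeff (r a + r b) (f a * f b) = 1)
    (hfour : ∀ a ∈ H, ∀ b ∈ H, ∀ c ∈ H, a ≠ b → a ≠ c → b ≠ c →
      coeff (r a + r b + r c + r (a + b + c)) (f a * f b * f c * f (a + b + c)) = 1) :
    ∃ (k : D → ℕ) (F : D → PowerSeries ℂ), ExactOn H R lam F k ∧ (∀ a ∈ H, k a ≤ r a) ∧
      ∀ a ∈ H, k a = 0 → ∀ i < r a, coeff i (f a) = 0 := by
  classical
  have h0 : ∀ a : D, ∃ (m k : ℕ) (F : PowerSeries ℂ), a ∈ H → r a = m + k ∧ f a = X ^ m * F ∧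
      coeff k F = 1 ∧ coeff 0 F ≠ 0 ∧
      ∀ j, Odd j → coeff j (F * rescale (lam a : ℂ) (exp ℂ) * R) = 0 := by
    intro a
    by_cases ha : a ∈ H
    · obtain ⟨m, k, F, h⟩ := one_data hR (hpar a ha) (h1 a ha)
      exact ⟨m, k, F, fun _ => h⟩
    · exact ⟨0, 0, 0, fun h => absurd h ha⟩
  choose m k F h using h0
  have hr : ∀ a ∈ H, r a = m a + k a := fun a ha => (h a ha).1
  have hf : ∀ a ∈ H, f a = X ^ m a * F a := fun a ha => (h a ha).2.1
  have hk : ∀ a ∈ H, coeff (k a) (F a) = 1 := fun a ha => (h a ha).2.2.1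
  have hne : ∀ a ∈ H, coeff 0 (F a) ≠ 0 := fun a ha => (h a ha).2.2.2.1
  have hodd : ∀ a ∈ H, ∀ j, Odd j → coeff j (F a * rescale (lam a : ℂ) (exp ℂ) * R) = 0 :=
    fun a ha => (h a ha).2.2.2.2
  refine ⟨k, fun a => PowerSeries.C (coeff 0 (F a))⁻¹ * F a, ⟨?_, ?_, ?_, ?_, ?_⟩, ?_, ?_⟩
  · intro a ha j hj
    rw [mul_assoc, mul_assoc, coeff_C_mul, ← mul_assoc (F a), hodd a ha j hj, mul_zero]
  · intro a ha
    rw [coeff_C_mul, inv_mul_cancel₀ (hne a ha)]
  · intro a ha
    rw [coeff_C_mul, hk a ha, mul_one]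
    exact inv_ne_zero (hne a ha)
  · intro a ha b hb hab
    have h3 := hpair a ha b hb hab
    have h4 : r a + r b = (k a + k b) + (m a + m b) := by rw [hr a ha, hr b hb]; ring
    have h5 : f a * f b = X ^ (m a + m b) * (F a * F b) := by
      rw [hf a ha, hf b hb, pow_add]; ring
    rw [h4, h5, coeff_X_pow_mul', if_pos (Nat.le_add_left _ _), Nat.add_sub_cancel_right] at h3
    rw [show PowerSeries.C (coeff 0 (F a))⁻¹ * F a * (PowerSeries.C (coeff 0 (F b))⁻¹ * F b) =
      (PowerSeries.C (coeff 0 (F a))⁻¹ * PowerSeries.C (coeff 0 (F b))⁻¹) * (F a * F b) by ring,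
      ← map_mul, coeff_C_mul, h3, coeff_C_mul, coeff_C_mul, hk a ha, hk b hb]
    ring
  · intro a ha b hb c hc hab hac hbc
    have hs := hH a ha b hb c hc
    have h3 := hfour a ha b hb c hc hab hac hbc
    have h4 : r a + r b + r c + r (a + b + c) =
        (k a + k b + k c + k (a + b + c)) + (m a + m b + m c + m (a + b + c)) := by
      rw [hr a ha, hr b hb, hr c hc, hr (a + b + c) hs]; ring
    have h5 : f a * f b * f c * f (a + b + c) = X ^ (m a + m b + m c + m (a + b + c)) *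
        (F a * F b * F c * F (a + b + c)) := by
      rw [hf a ha, hf b hb, hf c hc, hf (a + b + c) hs, pow_add, pow_add, pow_add]; ring
    rw [h4, h5, coeff_X_pow_mul', if_pos (Nat.le_add_left _ _), Nat.add_sub_cancel_right] at h3
    rw [show PowerSeries.C (coeff 0 (F a))⁻¹ * F a * (PowerSeries.C (coeff 0 (F b))⁻¹ * F b) *
      (PowerSeries.C (coeff 0 (F c))⁻¹ * F c) *
      (PowerSeries.C (coeff 0 (F (a + b + c)))⁻¹ * F (a + b + c)) =
      (PowerSeries.C (coeff 0 (F a))⁻¹ * PowerSeries.C (coeff 0 (F b))⁻¹ *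
        PowerSeries.C (coeff 0 (F c))⁻¹ * PowerSeries.C (coeff 0 (F (a + b + c)))⁻¹) *
        (F a * F b * F c * F (a + b + c)) by ring, ← map_mul, ← map_mul,
      ← map_mul, coeff_C_mul, h3, coeff_C_mul, coeff_C_mul, coeff_C_mul, coeff_C_mul,
      hk a ha, hk b hb, hk c hc, hk (a + b + c) hs]
    ring
  · intro a ha
    rw [hr a ha]
    omega
  · intro a ha hk0 i hi
    rw [hf a ha, coeff_X_pow_mul', if_neg]
    have := hr a ha
    omega

/-- From a family on a set of twists. -/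
theorem exactT {real : Bool} {T : Set ℤ} {γ : ℂ → ℂ} {L : ℤ → ℂ → ℂ} {A : ℤ → ℝ}
    {c : ℤ → ℂ} (hF : TFam T γ L A c) (r : ℤ → ℕ)
    (hex : ∀ C : Finset ℤ, ↑C ⊆ T → IsCoset C → C.card ≤ 4 → bsdQuot L r c C = 1)
    (H : Set (Cls real)) (hHT : ∀ x ∈ H, sqf x ∈ T)
    (hH : ∀ a ∈ H, ∀ b ∈ H, ∀ c ∈ H, a + b + c ∈ H) :
    ∃ (k : Cls real → ℕ) (F : Cls real → PowerSeries ℂ),
      ExactOn H (PowerSeries.C (γ 1)⁻¹ * tay γ) (fun x => Real.log (A (sqf x))) F k ∧
      (∀ a ∈ H, k a ≤ r (sqf a)) ∧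
      ∀ a ∈ H, k a = 0 → BSD (L (sqf a)) (r (sqf a)) (c (sqf a)) := by
  classical
  have hq : ∀ C : Finset ℤ, ↑C ⊆ T → IsCoset C → C.card ≤ 4 →
      coeff (∑ d ∈ C, r d) (∏ d ∈ C, ser L c d) = 1 := by
    intro C h1 h2 h3
    rw [← hF.quot r h1]
    exact hex C h1 h2 h3
  obtain ⟨k, F, h1, h2, h3⟩ := exactOn_of (H := H) (fac_zero hF.gamma_ne)
    (fun x : Cls real => Real.log (A (sqf x))) (fun x => r (sqf x)) (fun x => ser L c (sqf x)) hH
    (fun a ha i j hi hj => by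
      have h := hF.par (sqf a) (hHT a ha) i j hi hj
      unfold fac at h
      rw [mul_assoc]
      exact h)
    (fun a ha => by
      have h := hq {sqf a} (by simpa using hHT a ha) (isCoset_singleton _) (by simp)
      simpa using h)
    (fun a ha b hb hab => by
      have hne : sqf a ≠ sqf b := fun h2 => hab (sqf_injective h2)
      have h := hq {sqf a, sqf b} (by
        intro x hx
        rcases Finset.mem_insert.1 (Finset.mem_coe.1 hx) with h | h
        · exact h ▸ hHT a ha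
        · exact (Finset.mem_singleton.1 h) ▸ hHT b hb) (isCoset_pair _ _)
        (Finset.card_le_two.trans (by norm_num))
      rw [Finset.sum_pair hne, Finset.prod_pair hne] at h
      exact h)
    (fun a ha b hb d hd hab had hbd => by
      have h0 : (0 : Cls real) ∈ V4 a b d := mem_V4.2 (Or.inl rfl)
      have h := hq (cst a (V4 a b d)) (by
        intro x hx
        have hx' := Finset.mem_coe.1 hx
        unfold cst at hx'
        obtain ⟨v, hv, rfl⟩ := Finset.mem_image.1 hx'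
        apply hHT
        rcases mem_V4.1 hv with rfl | rfl | rfl | rfl
        · rw [add_zero]; exact ha
        · rw [← add_assoc, cls_add_self, zero_add]; exact hb
        · rw [← add_assoc, cls_add_self, zero_add]; exact hd
        · rw [← add_assoc]; exact hH a ha b hb d hd) (isCoset_cst h0 (V4_add a b d))
        (by rw [card_cst]; exact card_V4 a b d)
      rw [sum_cst, prod_cst, sum_V4 (fun v => r (sqf v)) hab had hbd,
        prod_V4 (fun v => ser L c (sqf v)) hab had hbd] at h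
      exact h)
  refine ⟨k, F, h1, h2, fun a ha hk => ?_⟩
  exact hF.bsd r (hHT a ha) (hex {sqf a} (by simpa using hHT a ha) (isCoset_singleton _) (by simp))
    (h3 a ha hk)

end W92892cX
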