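import Pool.Agent.W_92892c_x32.FinAbs
import Pool.Agent.W_92892c_x32.Brg85
import Pool.Agent.W_92892c_h88f.Cong88

/-!
The explicit finite form for the congruent number curves: the formula over the subfields of degree at
most `4` of one multiquadratic field.
-/

open Filter Topology

namespace MQV

open PowerSeries W92892cX W92892cX32 Pool.Agent.W_92892c_h88f PPM

/-- The numbers `d0 ^ ε ∏_{p ∈ I} p`, `ε = 0, 1`, `I ⊆ P`. -/
def tset (d0 : ℤ) (P : Finset ℕ) : Set ℤ :=
  {d | ∃ I : Finset ℕ, I ⊆ P ∧ (d = ((∏ p ∈ I, p : ℕ) : ℤ) ∨ d = d0 * ((∏ p ∈ I, p : ℕ) : ℤ))}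

section Sums

variable {real : Bool} {ι : Type} [DecidableEq ι]

theorem support_sum_pclF (e : ι → ℕ) (he : ∀ i, (e i).Prime) (hinj : Function.Injective e)
    (I : Finset ι) :
    (∑ i ∈ I, pcl (real := real) (e i) (he i)).support =
      I.map ⟨fun i => (⟨e i, Or.inl (he i)⟩ : Gen real), fun i j hij =>
        hinj (congrArg Subtype.val hij)⟩ := by
  classical
  induction I using Finset.induction_on with
  | empty => simp
  | insert i I hi ih =>
    have hs : (pcl (real := real) (e i) (he i)).support = {⟨e i, Or.inl (he i)⟩} := by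
      unfold pcl
      exact Finsupp.support_single _ (one_ne_zero : (1 : ZMod 2) ≠ 0)
    rw [Finset.sum_insert hi, Finsupp.support_add_eq, ih, hs, Finset.map_insert]
    · rfl
    · rw [ih, hs, Finset.disjoint_singleton_left]
      intro h
      rw [Finset.mem_map] at h
      obtain ⟨j, hj, hji⟩ := h
      have h2 : e j = e i := congrArg Subtype.val hji
      exact hi (hinj h2 ▸ hj)

theorem sqf_sum_pclF (e : ι → ℕ) (he : ∀ i, (e i).Prime) (hinj : Function.Injective e)
    (I : Finset ι) :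
    sqf (∑ i ∈ I, pcl (real := real) (e i) (he i)) = ((∏ i ∈ I, e i : ℕ) : ℤ) := by
  unfold sqf
  rw [support_sum_pclF e he hinj, Finset.prod_map]
  push_cast
  refine Finset.prod_congr rfl fun i _ => ?_
  show gen (e i) = _
  unfold gen
  rw [if_neg (he i).ne_zero]

theorem sqf_add_sum_pclF (e : ι → ℕ) (he : ∀ i, (e i).Prime) (hinj : Function.Injective e)
    (a : Cls real) (ha : ∀ i, ¬ ((e i : ℤ) ∣ sqf a)) (I : Finset ι) :
    sqf (a + ∑ i ∈ I, pcl (real := real) (e i) (he i)) = sqf a * ((∏ i ∈ I, e i : ℕ) : ℤ) := by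
  rw [sqf_add, sqf_sum_pclF e he hinj]
  rw [support_sum_pclF e he hinj, Finset.disjoint_right]
  intro g hg hga
  obtain ⟨i, _, rfl⟩ := Finset.mem_map.1 hg
  apply ha i
  have h1 : gen (e i) ∣ sqf a := by
    unfold sqf
    exact Finset.dvd_prod_of_mem (fun g : Gen real => gen g.1) hga
  unfold gen at h1
  rwa [if_neg (he i).ne_zero] at h1

theorem prod_inj (e : ι → ℕ) (he : ∀ i, (e i).Prime) (hinj : Function.Injective e) {I J : Finset ι}
    (h : ∏ i ∈ I, e i = ∏ i ∈ J, e i) : I = J := by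
  have key : ∀ I J : Finset ι, ∏ i ∈ I, e i = ∏ i ∈ J, e i → I ⊆ J := by
    intro I J h i hi
    have h1 : e i ∣ ∏ i ∈ J, e i := by
      rw [← h]
      exact Finset.dvd_prod_of_mem e hi
    rw [(he i).prime.dvd_finsetProd_iff] at h1
    obtain ⟨j, hj, hij⟩ := h1
    rw [Nat.prime_dvd_prime_iff_eq (he i) (he j)] at hij
    exact hinj hij ▸ hj
  exact Finset.Subset.antisymm (key I J h) (key J I h.symm)

theorem sum_log (e : ι → ℕ) (he : ∀ i, (e i).Prime) (I : Finset ι) :
    Real.log ((∏ i ∈ I, e i : ℕ) : ℝ) = ∑ i ∈ I, Real.log (e i) := by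
  push_cast
  rw [Real.log_prod fun i _ => by exact_mod_cast (he i).ne_zero]

theorem card_primeFactors_prod (e : ι → ℕ) (he : ∀ i, (e i).Prime) (I : Finset ι) :
    (∏ i ∈ I, e i).primeFactors.card ≤ I.card := by
  classical
  induction I using Finset.induction_on with
  | empty => simp
  | insert i I hi ih =>
    rw [Finset.prod_insert hi, Finset.card_insert_of_notMem hi,
      Nat.primeFactors_mul (he i).ne_zero (Finset.prod_ne_zero_iff.2 fun j _ => (he j).ne_zero)]
    refine (Finset.card_union_le _ _).trans ?_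
    rw [(he i).primeFactors, Finset.card_singleton]
    omega

end Sums

/-- **Explicit finite form.** -/
theorem explicit (t : ℕ) : ∃ n : ℕ, ∀ d0 ∈ Twists true, d0.natAbs.primeFactors.card ≤ t →
    ∀ P : Finset ℕ, n ≤ P.card → (∀ p ∈ P, p.Prime ∧ p % 8 = 3 ∧ ¬ ((p : ℤ) ∣ d0)) →
    ∀ (L : ℤ → ℂ → ℂ) (c : ℤ → ℂ),
      (∀ d ∈ tset d0 P, Differentiable ℂ (L d) ∧ EulerProduct (gcurve 0 (-1) 0 d) (L d)) →
      (∀ d ∈ tset d0 P, c d ≠ 0) →
      (∀ C : Finset ℤ, ↑C ⊆ tset d0 P → IsCoset C → C.card ≤ 4 → ∀ d ∈ C,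
        quotK 0 (-1) 0 L c d C = 1) → BSD (L d0) (rk 0 (-1) 0 d0) (c d0) := by
  classical
  obtain ⟨n, hn⟩ := fin_abs fun N => 2 * (t + N) + 4
  refine ⟨n, ?_⟩
  intro d0 hd0 ht P hnP hP L c hL hc hq
  have hd0pos : 0 < d0 := hd0.2 rfl
  -- the primes
  let e : Fin P.card → ℕ := fun i => P.orderEmbOfFin rfl i
  have heP : ∀ i, e i ∈ P := fun i => Finset.orderEmbOfFin_mem P rfl i
  have hinj : Function.Injective e := (P.orderEmbOfFin rfl).injective
  have he : ∀ i, (e i).Prime := fun i => (hP _ (heP i)).1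
  have h8 : ∀ i, e i % 8 = 3 := fun i => (hP _ (heP i)).2.1
  have hdvd : ∀ i, ¬ ((e i : ℤ) ∣ d0) := fun i => (hP _ (heP i)).2.2
  have hprodpos : ∀ I : Finset (Fin P.card), 0 < ∏ i ∈ I, e i := fun I =>
    Finset.prod_pos fun i _ => (he i).pos
  have hodd : ∀ I : Finset (Fin P.card), Odd (∏ i ∈ I, e i) := by
    intro I
    refine Finset.prod_induction _ Odd (fun a b ha hb => ha.mul hb) odd_one fun i _ => ?_
    rw [Nat.odd_iff]
    have := h8 i
    omega
  -- the classes
  obtain ⟨a, ha⟩ := exists_sqf hd0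
  let p : Fin P.card → Cls true := fun i => pcl (e i) (he i)
  have hs0 : ∀ I : Finset (Fin P.card), sqf (∑ i ∈ I, p i) = ((∏ i ∈ I, e i : ℕ) : ℤ) :=
    sqf_sum_pclF e he hinj
  have hs1 : ∀ I : Finset (Fin P.card),
      sqf (a + ∑ i ∈ I, p i) = d0 * ((∏ i ∈ I, e i : ℕ) : ℤ) := by
    intro I
    rw [← ha]
    exact sqf_add_sum_pclF e he hinj a (by rw [ha]; exact hdvd) I
  -- the set of twists
  have hmem0 : ∀ I : Finset (Fin P.card), ((∏ i ∈ I, e i : ℕ) : ℤ) ∈ tset d0 P ∧
      d0 * ((∏ i ∈ I, e i : ℕ) : ℤ) ∈ tset d0 P := by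
    intro I
    have h1 : ∏ q ∈ I.image e, q = ∏ i ∈ I, e i := Finset.prod_image fun i _ j _ h => hinj h
    have h2 : I.image e ⊆ P := by
      intro q hq
      obtain ⟨i, _, rfl⟩ := Finset.mem_image.1 hq
      exact heP i
    exact ⟨⟨I.image e, h2, Or.inl (by rw [h1])⟩, ⟨I.image e, h2, Or.inr (by rw [h1])⟩⟩
  have hHT : ∀ x ∈ TS a p, sqf x ∈ tset d0 P := by
    rintro x ⟨I, rfl | rfl⟩
    · rw [hs0]; exact (hmem0 I).1
    · rw [hs1]; exact (hmem0 I).2
  have hback : ∀ d ∈ tset d0 P, ∃ x ∈ TS a p, sqf x = d := by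
    rintro d ⟨J, hJ, hd⟩
    let I : Finset (Fin P.card) := Finset.univ.filter fun i => e i ∈ J
    have h1 : I.image e = J := by
      ext q
      constructor
      · intro hq
        obtain ⟨i, hi, rfl⟩ := Finset.mem_image.1 hq
        exact (Finset.mem_filter.1 hi).2
      · intro hq
        have h2 : q ∈ Set.range (P.orderEmbOfFin rfl) := by
          rw [Finset.range_orderEmbOfFin]
          exact hJ hq
        obtain ⟨i, hi⟩ := h2
        refine Finset.mem_image.2 ⟨i, Finset.mem_filter.2 ⟨Finset.mem_univ _, ?_⟩, hi⟩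
        show e i ∈ J
        rw [show e i = q from hi]
        exact hq
    have h3 : ∏ i ∈ I, e i = ∏ q ∈ J, q := by
      rw [← h1]
      exact (Finset.prod_image (f := fun q : ℕ => q) (g := e) fun i _ j _ h => hinj h).symm
    rcases hd with rfl | rfl
    · exact ⟨_, ⟨I, Or.inl rfl⟩, by rw [hs0, h3]⟩
    · exact ⟨_, ⟨I, Or.inr rfl⟩, by rw [hs1, h3]⟩
  have hTT : tset d0 P ⊆ Twists true := by
    intro d hd
    obtain ⟨x, _, rfl⟩ := hback d hd
    exact sqf_mem x
  have hH : ∀ x ∈ TS a p, ∀ y ∈ TS a p, ∀ z ∈ TS a p, x + y + z ∈ TS a p := by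
    have h2 : ∀ I J K : Finset (Fin P.card), ∃ M : Finset (Fin P.card),
        ∑ i ∈ I, p i + ∑ i ∈ J, p i + ∑ i ∈ K, p i = ∑ i ∈ M, p i := fun I J K =>
      ⟨symmDiff (symmDiff I J) K, by
        rw [sum_symmDiffF cls_add_self, sum_symmDiffF cls_add_self]⟩
    rintro x ⟨I, hx⟩ y ⟨J, hy⟩ z ⟨K, hz⟩
    obtain ⟨M, hM⟩ := h2 I J K
    have haa : a + a = 0 := cls_add_self a
    rcases hx with rfl | rfl <;> rcases hy with rfl | rfl <;> rcases hz with rfl | rfl
    · exact ⟨M, Or.inl hM⟩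
    · exact ⟨M, Or.inr (by rw [← hM]; abel)⟩
    · exact ⟨M, Or.inr (by rw [← hM]; abel)⟩
    · exact ⟨M, Or.inl (by
        rw [← hM]
        calc _ = (a + a) + (∑ i ∈ I, p i + ∑ i ∈ J, p i + ∑ i ∈ K, p i) := by abel
          _ = _ := by rw [haa, zero_add])⟩
    · exact ⟨M, Or.inr (by rw [← hM]; abel)⟩
    · exact ⟨M, Or.inl (by
        rw [← hM]
        calc _ = (a + a) + (∑ i ∈ I, p i + ∑ i ∈ J, p i + ∑ i ∈ K, p i) := by abel
          _ = _ := by rw [haa, zero_add])⟩
    · exact ⟨M, Or.inl (by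
        rw [← hM]
        calc _ = (a + a) + (∑ i ∈ I, p i + ∑ i ∈ J, p i + ∑ i ∈ K, p i) := by abel
          _ = _ := by rw [haa, zero_add])⟩
    · exact ⟨M, Or.inr (by
        rw [← hM]
        calc _ = (a + a) + a + (∑ i ∈ I, p i + ∑ i ∈ J, p i + ∑ i ∈ K, p i) := by abel
          _ = _ := by rw [haa, zero_add])⟩
  -- the family
  have hF : TFam (tset d0 P) Complex.Gamma L famA c := by
    obtain ⟨g1, g2, g3, g4, g5, g6, g7⟩ :=
      congT (fun d hd => ⟨(hTT hd).1, (hTT hd).2 rfl⟩) hL hc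
    exact ⟨g1, g2, g3, g4, g5, g6, g7⟩
  have hex : ∀ C : Finset ℤ, ↑C ⊆ tset d0 P → IsCoset C → C.card ≤ 4 →
      bsdQuot L (rk 0 (-1) 0) c C = 1 := by
    intro C hC hC' h4
    obtain ⟨x, hx⟩ := hC'.nonempty
    rw [← quotK_eq congr_disc L c true C hC' (hC.trans hTT) x hx]
    exact hq C hC hC' h4 x hx
  obtain ⟨k, F, hE, hk, hB⟩ := exactT hF (rk 0 (-1) 0) hex (TS a p) hHT hH
  have hR : coeff 0 (PowerSeries.C (Complex.Gamma 1)⁻¹ * tay Complex.Gamma) = 1 :=
    fac_zero hF.gamma_ne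
  have hT0 : ∀ I : Finset (Fin P.card), ∑ i ∈ I, p i ∈ TS a p := fun I => ⟨I, Or.inl rfl⟩
  have hT1 : ∀ I : Finset (Fin P.card), a + ∑ i ∈ I, p i ∈ TS a p := fun I => ⟨I, Or.inr rfl⟩
  have hp1 : ∀ j, p j ∈ TS a p := fun j => by
    have := hT0 {j}
    rwa [Finset.sum_singleton] at this
  have hsp : ∀ j, sqf (p j) = (e j : ℤ) := fun j => by
    have := hs0 {j}
    rwa [Finset.sum_singleton, Finset.prod_singleton] at this
  -- the numbers `A`
  have hA0 : ∀ I : Finset (Fin P.card), Real.log (famA (sqf (∑ i ∈ I, p i))) =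
      Real.log (famA 1) + ∑ i ∈ I, Real.log (e i) := by
    intro I
    have h1 : famA (((∏ i ∈ I, e i : ℕ) : ℤ)) = famA 1 * ((∏ i ∈ I, e i : ℕ) : ℝ) := by
      have := famA_mul one_pos (hodd I)
      rwa [one_mul] at this
    have h2 : (0 : ℝ) < famA 1 := famA_pos 1 ⟨squarefree_one, fun _ => one_pos⟩
    have h3 : ((∏ i ∈ I, e i : ℕ) : ℝ) ≠ 0 := by exact_mod_cast (hprodpos I).ne'
    rw [hs0, h1, Real.log_mul h2.ne' h3, sum_log e he]
  have hA1 : ∀ I : Finset (Fin P.card), Real.log (famA (sqf (a + ∑ i ∈ I, p i))) =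
      Real.log (famA d0) + ∑ i ∈ I, Real.log (e i) := by
    intro I
    have h2 : (0 : ℝ) < famA d0 := famA_pos d0 hd0
    have h3 : ((∏ i ∈ I, e i : ℕ) : ℝ) ≠ 0 := by exact_mod_cast (hprodpos I).ne'
    rw [hs1, famA_mul hd0pos (hodd I), Real.log_mul h2.ne' h3, sum_log e he]
  -- the injectivity of the sums of logarithms
  have hlogs : Function.Injective fun I : Finset (Fin P.card) => ∑ i ∈ I, Real.log (e i) := by
    intro I J hIJ
    have h1 : Real.log ((∏ i ∈ I, e i : ℕ) : ℝ) = Real.log ((∏ i ∈ J, e i : ℕ) : ℝ) := by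
      rw [sum_log e he, sum_log e he]
      exact hIJ
    have h2 := Real.log_injOn_pos (Set.mem_Ioi.2 (by exact_mod_cast hprodpos I))
      (Set.mem_Ioi.2 (by exact_mod_cast hprodpos J)) h1
    exact prod_inj e he hinj (by exact_mod_cast h2)
  -- the ranks
  have hrk : ∀ d : ℤ, d ≠ 0 → rk 0 (-1) 0 d ≤ 2 * d.natAbs.primeFactors.card + 4 := by
    intro d hd
    unfold rk
    rw [gcurve_congr]
    exact CN3.curve_finrank_le hd
  have hka : k a = 0 := by
    refine hn (Cls true) cls_add_self (PowerSeries.C (Complex.Gamma 1)⁻¹ * tay Complex.Gamma)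
      (fun x => Real.log (famA (sqf x))) F k a P.card p (Real.log (famA 1)) (Real.log (famA d0))
      (fun i => Real.log (e i)) P.card p hnP ?_ hR hlogs hA0 hA1
      (fun x hx => hE.isType hR x hx) ?_ ?_ ?_ ?_ hE.four
    · rw [Finset.card_image_of_injective, Finset.card_univ, Fintype.card_fin]
      · exact hnP
      · intro i j hij
        have h1 := hA0 {i}
        have h2 := hA0 {j}
        simp only [Finset.sum_singleton] at h1 h2
        have h3 : Real.log (famA (sqf (p i))) = Real.log (famA (sqf (p j))) := hij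
        rw [h1, h2] at h3
        have h4 : Real.log (e i) = Real.log (e j) := by linarith
        have h5 := Real.log_injOn_pos (Set.mem_Ioi.2 (by exact_mod_cast (he i).pos))
          (Set.mem_Ioi.2 (by exact_mod_cast (he j).pos)) h4
        exact hinj (by exact_mod_cast h5)
    · rintro I ⟨i, hi⟩
      have h1 : (e i : ℤ) ∣ ((∏ i ∈ I, e i : ℕ) : ℤ) := by
        exact_mod_cast Finset.dvd_prod_of_mem e hi
      constructor
      · intro h
        have h2 := hs0 I
        rw [h] at h2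
        have h3 : sqf (0 : Cls true) = 1 := by
          unfold sqf
          simp
        rw [h3] at h2
        rw [← h2] at h1
        have h4 : e i ∣ 1 := by exact_mod_cast h1
        exact (he i).one_lt.ne' (Nat.dvd_one.1 h4)
      · intro h
        have h2 := hs0 I
        rw [h, ha] at h2
        rw [← h2] at h1
        exact hdvd i h1
    · intro I
      have h5 := card_primeFactors_prod e he I
      constructor
      · refine (hk _ (hT0 I)).trans ?_
        rw [hs0]
        refine (hrk _ (by exact_mod_cast (hprodpos I).ne')).trans ?_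
        rw [Int.natAbs_natCast]
        omega
      · refine (hk _ (hT1 I)).trans ?_
        rw [hs1]
        refine (hrk _ (mul_ne_zero hd0pos.ne' (by exact_mod_cast (hprodpos I).ne'))).trans ?_
        rw [Int.natAbs_mul, Int.natAbs_natCast,
          Nat.primeFactors_mul (Int.natAbs_ne_zero.2 hd0pos.ne') (hprodpos I).ne']
        have h6 := Finset.card_union_le d0.natAbs.primeFactors (∏ i ∈ I, e i).primeFactors
        omega
    · intro j
      refine ⟨hE.isType hR (p j) (hp1 j), ?_⟩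
      have h1 := hk (p j) (hp1 j)
      rw [hsp] at h1
      have h2 : rk 0 (-1) 0 (e j : ℤ) = 0 := by
        unfold rk
        rw [gcurve_congr]
        exact CN3.curve_finrank_zero (he j) (h8 j)
      omega
    · intro x hx j hxj
      exact hE.pair x hx (p j) (hp1 j) hxj
  have h1 : a ∈ TS a p := by
    have := hT1 ∅
    rwa [Finset.sum_empty, add_zero] at this
  have h2 := hB a h1 hka
  rwa [ha] at h2

end MQV
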