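import Pool.Agent.W_92892c_x32.FinAbs
import Pool.Agent.W_92892c_x32.Brg85

/-!
The explicit finite form for every elliptic curve (MP_92892c_nt).
-/

open Filter Topology

namespace W92892cX32

open PowerSeries MQV Pool.Agent.W_92892c_h88f

theorem nat_sq {m n : ℕ} (hm : Squarefree m) (hn : Squarefree n) (h : IsSquare (m * n)) :
    m = n := by
  obtain ⟨z, hz⟩ := h
  have key : ∀ m n : ℕ, Squarefree m → m * n = z * z → m ∣ n := by
    intro m n hm hz
    have h1 : m ∣ z ^ 2 := ⟨n, by rw [sq]; exact hz.symm⟩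
    obtain ⟨k, rfl⟩ := (hm.dvd_pow_iff_dvd two_ne_zero).1 h1
    have hm0 : 0 < m := Nat.pos_of_ne_zero hm.ne_zero
    refine ⟨k * k, Nat.eq_of_mul_eq_mul_left hm0 ?_⟩
    rw [hz]
    ring
  exact Nat.dvd_antisymm (key m n hm hz) (key n m hn (by rw [mul_comm]; exact hz))

theorem int_sq {u v : ℤ} (hu : Squarefree u) (hv : Squarefree v) (h : IsSquare (u * v)) :
    u = v := by
  obtain ⟨z, hz⟩ := h
  have h1 : u.natAbs = v.natAbs := by
    refine nat_sq (Int.squarefree_natAbs.2 hu) (Int.squarefree_natAbs.2 hv) ⟨z.natAbs, ?_⟩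
    rw [← Int.natAbs_mul, hz, Int.natAbs_mul]
  rcases Int.natAbs_eq_natAbs_iff.1 h1 with h2 | h2
  · exact h2
  · exfalso
    have hv0 : v ≠ 0 := hv.ne_zero
    have h3 : 0 < v * v := mul_self_pos.2 hv0
    have h4 : 0 ≤ z * z := mul_self_nonneg z
    rw [h2] at hz
    nlinarith

theorem sqf_zero {real : Bool} : sqf (0 : Cls real) = 1 := by
  unfold sqf
  simp

theorem sqf_sqfree {real : Bool} (a : Cls real) : Squarefree (sqf a) := (sqf_mem a).1

/-- The class of the product. -/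
theorem add_of_sq {real : Bool} {a b c : Cls real} (h : IsSquare (sqf a * sqf b * sqf c)) :
    c = a + b := by
  have h1 : IsSquare (sqf a * sqf b * sqf (a + b) * sqf (0 : Cls real)) := by
    apply isSquare_four
    rw [add_zero, cls_add_self]
  rw [sqf_zero, mul_one] at h1
  have h0 : sqf a * sqf b ≠ 0 := mul_ne_zero (sqf_sqfree a).ne_zero (sqf_sqfree b).ne_zero
  have h2 : IsSquare (sqf c * sqf (a + b) * ((sqf a * sqf b) * (sqf a * sqf b))) := by
    have h3 := h.mul h1
    have h4 : sqf a * sqf b * sqf c * (sqf a * sqf b * sqf (a + b)) =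
        sqf c * sqf (a + b) * ((sqf a * sqf b) * (sqf a * sqf b)) := by ring
    rwa [h4] at h3
  have h3 : IsSquare (sqf c * sqf (a + b)) := by
    obtain ⟨z, hz⟩ := h2
    have h5 : (sqf a * sqf b) ∣ z := by
      have h6 : (sqf a * sqf b) ^ 2 ∣ z ^ 2 :=
        ⟨sqf c * sqf (a + b), by rw [sq, sq, ← hz]; ring⟩
      exact (Int.pow_dvd_pow_iff two_ne_zero).1 h6
    obtain ⟨y, rfl⟩ := h5
    refine ⟨y, ?_⟩
    have h7 : (sqf a * sqf b) * (sqf a * sqf b) ≠ 0 := mul_ne_zero h0 h0
    apply mul_right_cancel₀ h7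
    rw [hz]
    ring
  exact sqf_injective (int_sq (sqf_sqfree _) (sqf_sqfree _) h3)

section sums

variable {real : Bool} {ι : Type}

theorem support_sumF (e : ι → ℕ) (he : ∀ i, (e i).Prime) (hinj : Function.Injective e)
    (I : Finset ι) :
    (∑ i ∈ I, pcl (real := real) (e i) (he i)).support =
      I.map ⟨fun i => (⟨e i, Or.inl (he i)⟩ : Gen real), fun i j hij =>
        hinj (congrArg Subtype.val hij)⟩ := by
  classical
  induction I using Finset.induction_on with
  | empty => simp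
  | insert i I hi ih =>
    have hs : (pcl (real := real) (e i) (he i)).support = {⟨e i, Or.inl (he i)⟩} := by
      unfold pcl
      exact Finsupp.support_single _ (one_ne_zero : (1 : ZMod 2) ≠ 0)
    rw [Finset.sum_insert hi, Finsupp.support_add_eq, ih, hs, Finset.map_insert]
    · rfl
    · rw [ih, hs, Finset.disjoint_singleton_left]
      intro h
      rw [Finset.mem_map] at h
      obtain ⟨j, hj, hji⟩ := h
      have h2 : e j = e i := congrArg Subtype.val hji
      exact hi (hinj h2 ▸ hj)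

theorem sqf_sumF (e : ι → ℕ) (he : ∀ i, (e i).Prime) (hinj : Function.Injective e)
    (I : Finset ι) :
    sqf (∑ i ∈ I, pcl (real := real) (e i) (he i)) = ((∏ i ∈ I, e i : ℕ) : ℤ) := by
  unfold sqf
  rw [support_sumF e he hinj, Finset.prod_map]
  push_cast
  refine Finset.prod_congr rfl fun i _ => ?_
  show gen (e i) = _
  unfold gen
  rw [if_neg (he i).ne_zero]

theorem om_sumF (e : ι → ℕ) (he : ∀ i, (e i).Prime) (hinj : Function.Injective e)
    (I : Finset ι) :
    om (∑ i ∈ I, pcl (real := real) (e i) (he i)) = I.card := by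
  unfold om
  rw [support_sumF e he hinj, Finset.card_map]

theorem sumF_injective (e : ι → ℕ) (he : ∀ i, (e i).Prime) (hinj : Function.Injective e)
    {I J : Finset ι} (h : ∑ i ∈ I, pcl (real := real) (e i) (he i) =
      ∑ i ∈ J, pcl (real := real) (e i) (he i)) : I = J := by
  have h1 := support_sumF (real := real) e he hinj I
  rw [h, support_sumF e he hinj J] at h1
  exact (Finset.map_injective _ h1).symm

end sums

/-- A group of square classes, represented by squarefree integers. -/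
structure TGrp (T : Set ℤ) : Prop where
  sqfree : ∀ d ∈ T, Squarefree d
  one : (1 : ℤ) ∈ T
  closed : ∀ x ∈ T, ∀ y ∈ T, ∃ w ∈ T, IsSquare (x * y * w)

theorem om_le_primeFactors {real : Bool} (a : Cls real) :
    om a ≤ (sqf a).natAbs.primeFactors.card + 1 := by
  classical
  rw [primeFactors_sqf]
  have h1 : om a = (im a).card := by
    unfold om im
    exact (Finset.card_image_of_injective _ Subtype.val_injective).symm
  rw [h1]
  have h2 := Finset.pred_card_le_card_erase (s := im a) (a := 0)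
  omega

theorem explicit_gen {a2 a4 a6 : ℤ} (hΔ : (gcurve a2 a4 a6 1).Δ ≠ 0) (t : ℕ) :
    ∃ n : ℕ, ∀ (T : Set ℤ) (γ : ℂ → ℂ) (L : ℤ → ℂ → ℂ) (A : ℤ → ℝ) (c : ℤ → ℂ),
      TGrp T → TFam T γ L A c → ∀ d0 ∈ T, d0.natAbs.primeFactors.card ≤ t →
      ∀ P : Finset ℕ, n ≤ P.card → (∀ p ∈ P, p.Prime ∧ ¬ (p : ℤ) ∣ d0 ∧ (p : ℤ) ∈ T) →
      (∀ I ⊆ P, A ((∏ p ∈ I, p : ℕ) : ℤ) = A 1 * ((∏ p ∈ I, p : ℕ) : ℝ) ∧
        A (d0 * ((∏ p ∈ I, p : ℕ) : ℤ)) = A d0 * ((∏ p ∈ I, p : ℕ) : ℝ)) →
      ∀ B : Finset ℤ, (∀ b ∈ B, b ∈ T ∧ rk a2 a4 a6 b = 0) → n ≤ (B.image A).card →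
      (∀ C : Finset ℤ, ↑C ⊆ T → IsCoset C → C.card ≤ 4 → ∀ d ∈ C,
        quotK a2 a4 a6 L c d C = 1) →
      BSD (L d0) (rk a2 a4 a6 d0) (c d0) := by
  classical
  obtain ⟨M, hM⟩ := Classical.axiomOfChoice (bdd_cls (real := false) (rk_bound hΔ false))
  obtain ⟨n, hn⟩ := fin_abs fun N => M (t + 1 + N)
  refine ⟨n, ?_⟩
  intro T γ L A c hT hF d0 hd0 ht P hP hPp hA B hB hBn hquot
  have hTw : T ⊆ Twists false := fun d hd => ⟨hT.sqfree d hd, by simp⟩
  have hex : ∀ C : Finset ℤ, ↑C ⊆ T → IsCoset C → C.card ≤ 4 →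
      bsdQuot L (rk a2 a4 a6) c C = 1 := by
    intro C hC hC' h4
    obtain ⟨e, he⟩ := hC'.nonempty
    rw [← quotK_eq hΔ L c false C hC' (hC.trans hTw) e he]
    exact hquot C hC hC' h4 e he
  let H : Set (Cls false) := {x | sqf x ∈ T}
  have hH0 : (0 : Cls false) ∈ H := by
    show sqf (0 : Cls false) ∈ T
    rw [sqf_zero]
    exact hT.one
  have hadd : ∀ a ∈ H, ∀ b ∈ H, a + b ∈ H := by
    intro a ha b hb
    obtain ⟨w, hw, hsq⟩ := hT.closed _ ha _ hb
    obtain ⟨c, rfl⟩ := exists_sqf (real := false) (hTw hw)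
    have h1 := add_of_sq hsq
    rw [← h1]
    exact hw
  obtain ⟨k, F, hE, hk, hbsd⟩ := W92892cX.exactT (real := false) hF (rk a2 a4 a6) hex H
    (fun x hx => hx) (fun a ha b hb c hc => hadd _ (hadd a ha b hb) c hc)
  have hR : coeff 0 (PowerSeries.C (γ 1)⁻¹ * tay γ) = 1 := fac_zero hF.gamma_ne
  obtain ⟨δ, hδ⟩ := exists_sqf (real := false) (hTw hd0)
  have hδH : δ ∈ H := by
    show sqf δ ∈ T
    rw [hδ]
    exact hd0
  -- the primes
  let e0 : Fin P.card ↪o ℕ := P.orderEmbOfFin rfl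
  let e : Fin P.card → ℕ := fun i => e0 i
  have heP : ∀ i, e i ∈ P := fun i => P.orderEmbOfFin_mem rfl i
  have he : ∀ i, (e i).Prime := fun i => (hPp _ (heP i)).1
  have hinj : Function.Injective e := e0.injective
  let p : Fin P.card → Cls false := fun i => pcl (e i) (he i)
  have hsum : ∀ I : Finset (Fin P.card), sqf (∑ i ∈ I, p i) = ((∏ i ∈ I, e i : ℕ) : ℤ) :=
    fun I => sqf_sumF e he hinj I
  have hprod : ∀ I : Finset (Fin P.card), ∏ q ∈ I.image e, q = ∏ i ∈ I, e i := fun I =>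
    Finset.prod_image fun i _ j _ hij => hinj hij
  have himg : ∀ I : Finset (Fin P.card), I.image e ⊆ P := by
    intro I q hq
    obtain ⟨i, -, rfl⟩ := Finset.mem_image.1 hq
    exact heP i
  have hpH : ∀ i, p i ∈ H := by
    intro i
    have h1 := hsum {i}
    rw [Finset.sum_singleton, Finset.prod_singleton] at h1
    show sqf (p i) ∈ T
    rw [h1]
    exact (hPp _ (heP i)).2.2
  have hsumH : ∀ I : Finset (Fin P.card), ∑ i ∈ I, p i ∈ H := by
    intro I
    induction I using Finset.induction_on with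
    | empty => simpa using hH0
    | insert i I hi ih =>
      rw [Finset.sum_insert hi]
      exact hadd _ (hpH i) _ ih
  have hdisj : ∀ I : Finset (Fin P.card), Disjoint δ.support (∑ i ∈ I, p i).support := by
    intro I
    rw [support_sumF e he hinj I, Finset.disjoint_left]
    intro g hg hg'
    obtain ⟨i, hi, rfl⟩ := Finset.mem_map.1 hg'
    have h1 : e i ∈ im δ := Finset.mem_image.2 ⟨_, hg, rfl⟩
    have h2 : e i ∈ (sqf δ).natAbs.primeFactors := by
      rw [primeFactors_sqf]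
      exact Finset.mem_erase.2 ⟨(he i).ne_zero, h1⟩
    have h3 := Nat.dvd_of_mem_primeFactors h2
    rw [hδ] at h3
    exact (hPp _ (heP i)).2.1 (Int.natCast_dvd.2 h3)
  have hsum1 : ∀ I : Finset (Fin P.card), sqf (δ + ∑ i ∈ I, p i) =
      d0 * ((∏ i ∈ I, e i : ℕ) : ℤ) := by
    intro I
    rw [sqf_add (hdisj I), hsum, hδ]
  have hlogprod : ∀ I : Finset (Fin P.card), Real.log ((∏ i ∈ I, e i : ℕ) : ℝ) =
      ∑ i ∈ I, Real.log (e i) := by
    intro I
    push_cast
    rw [Real.log_prod fun i _ => by exact_mod_cast (he i).ne_zero]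
  have hprodpos : ∀ I : Finset (Fin P.card), ((∏ i ∈ I, e i : ℕ) : ℝ) ≠ 0 := by
    intro I
    exact_mod_cast Finset.prod_ne_zero_iff.2 fun i _ => (he i).ne_zero
  have hlam0 : ∀ I : Finset (Fin P.card), Real.log (A (sqf (∑ i ∈ I, p i))) =
      Real.log (A 1) + ∑ i ∈ I, Real.log (e i) := by
    intro I
    have h1 := (hA _ (himg I)).1
    rw [hprod] at h1
    rw [hsum, h1, Real.log_mul (hF.pos 1 hT.one).ne' (hprodpos I), hlogprod]
  have hlam1 : ∀ I : Finset (Fin P.card), Real.log (A (sqf (δ + ∑ i ∈ I, p i))) =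
      Real.log (A d0) + ∑ i ∈ I, Real.log (e i) := by
    intro I
    have h1 := (hA _ (himg I)).2
    rw [hprod] at h1
    rw [hsum1, h1, Real.log_mul (hF.pos d0 hd0).ne' (hprodpos I), hlogprod]
  have hwinj : Function.Injective fun I : Finset (Fin P.card) => ∑ i ∈ I, Real.log (e i) := by
    intro I J hIJ
    have h1 : Real.log ((∏ i ∈ I, e i : ℕ) : ℝ) = Real.log ((∏ i ∈ J, e i : ℕ) : ℝ) := by
      rw [hlogprod, hlogprod]
      exact hIJ
    have h2 : ((∏ i ∈ I, e i : ℕ) : ℝ) = ((∏ i ∈ J, e i : ℕ) : ℝ) := by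
      refine Real.log_injOn_pos (Set.mem_Ioi.2 ?_) (Set.mem_Ioi.2 ?_) h1
      · exact_mod_cast Finset.prod_pos fun i _ => (he i).pos
      · exact_mod_cast Finset.prod_pos fun i _ => (he i).pos
    have h3 : ∏ i ∈ I, e i = ∏ i ∈ J, e i := by exact_mod_cast h2
    have h4 : sqf (∑ i ∈ I, p i) = sqf (∑ i ∈ J, p i) := by rw [hsum, hsum, h3]
    exact sumF_injective (real := false) e he hinj (sqf_injective h4)
  have hTS : ∀ a ∈ TS δ p, a ∈ H := by
    rintro a ⟨I, rfl | rfl⟩
    · exact hsumH I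
    · exact hadd _ hδH _ (hsumH I)
  have homδ : om δ ≤ t + 1 := by
    refine (om_le_primeFactors δ).trans ?_
    rw [hδ]
    omega
  -- the twists of rank zero
  have hcls : ∀ j : Fin B.card, ∃ x : Cls false, sqf x = B.orderEmbOfFin rfl j := fun j =>
    exists_sqf (hTw (hB _ (B.orderEmbOfFin_mem rfl j)).1)
  choose b hb using hcls
  have hbB : ∀ j, sqf (b j) ∈ B := fun j => by
    rw [hb]
    exact B.orderEmbOfFin_mem rfl j
  have hbH : ∀ j, b j ∈ H := fun j => (hB _ (hbB j)).1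
  have hbk : ∀ j, k (b j) = 0 := by
    intro j
    have h1 := hk _ (hbH j)
    rw [(hB _ (hbB j)).2] at h1
    omega
  have hcard : n ≤ (Finset.univ.image fun j => Real.log (A (sqf (b j)))).card := by
    have h1 : (Finset.univ.image fun j => Real.log (A (sqf (b j)))) =
        (B.image A).image Real.log := by
      ext x
      simp only [Finset.mem_image, Finset.mem_univ, true_and]
      constructor
      · rintro ⟨j, rfl⟩
        exact ⟨_, ⟨_, hbB j, rfl⟩, rfl⟩
      · rintro ⟨_, ⟨z, hz, rfl⟩, rfl⟩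
        have h2 : z ∈ Set.range (B.orderEmbOfFin rfl) := by
          rw [Finset.range_orderEmbOfFin]
          exact hz
        obtain ⟨j, hj⟩ := h2
        exact ⟨j, by rw [hb, hj]⟩
    rw [h1, Finset.card_image_of_injOn]
    · exact hBn
    · intro x hx y hy hxy
      obtain ⟨z, hz, rfl⟩ := Finset.mem_image.1 (Finset.mem_coe.1 hx)
      obtain ⟨z', hz', rfl⟩ := Finset.mem_image.1 (Finset.mem_coe.1 hy)
      exact Real.log_injOn_pos (Set.mem_Ioi.2 (hF.pos _ (hB _ hz).1))
        (Set.mem_Ioi.2 (hF.pos _ (hB _ hz').1)) hxy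
  have hkδ : k δ = 0 := by
    refine hn (Cls false) cls_add_self (PowerSeries.C (γ 1)⁻¹ * tay γ)
      (fun x => Real.log (A (sqf x))) F k δ P.card p (Real.log (A 1)) (Real.log (A d0))
      (fun i => Real.log (e i)) B.card b hP hcard hR hwinj hlam0 hlam1 ?_ ?_ ?_ ?_ ?_ ?_
    · intro a ha
      exact hE.isType hR a (hTS a ha)
    · intro I hI
      have h1 : (∑ i ∈ I, p i).support.Nonempty := by
        rw [support_sumF e he hinj I]
        exact hI.map
      refine ⟨?_, ?_⟩
      · intro h0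
        rw [h0] at h1
        simp at h1
      · intro h0
        have h2 := hdisj I
        rw [h0, disjoint_self] at h2
        rw [h0] at h1
        exact h1.ne_empty h2
    · intro I
      refine ⟨(hk _ (hsumH I)).trans (hM _ _ ?_),
        (hk _ (hadd _ hδH _ (hsumH I))).trans (hM _ _ ?_)⟩
      · rw [om_sumF e he hinj I]
        omega
      · have h1 := om_add δ (∑ i ∈ I, p i)
        have h2 : om (∑ i ∈ I, p i) = I.card := om_sumF e he hinj I
        omega
    · intro j
      exact ⟨hE.isType hR _ (hbH j), hbk j⟩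
    · intro a ha j hab
      exact hE.pair a (hTS a ha) _ (hbH j) hab
    · intro a ha b' hb' c' hc'
      exact hE.four a (hTS a ha) b' (hTS b' hb') c' (hTS c' hc')
  have h1 := hbsd δ hδH hkδ
  rwa [hδ] at h1

end W92892cX32
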