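import Pool.Agent.W_92892c_x32.CntU
import Pool.Agent.W_92892c_h85.Cfg

/-!
The finite configuration (MP_92892c_nt, explicit finite form).
-/

namespace W92892cX32

open Finset PowerSeries Filter W92892cH85

/-- The sums of the `p i` and their translates by `d`. -/
def TS {D : Type} [AddCommGroup D] {n : ℕ} (d : D) (p : Fin n → D) : Set D :=
  {x | ∃ I : Finset (Fin n), x = ∑ i ∈ I, p i ∨ x = d + ∑ i ∈ I, p i}

theorem sum_symmDiffF {D ι : Type} [DecidableEq ι] [AddCommGroup D] (hD : ∀ a : D, a + a = 0)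
    (p : ι → D) (I J : Finset ι) :
    ∑ x ∈ symmDiff I J, p x = ∑ x ∈ I, p x + ∑ x ∈ J, p x := by
  have h1 : ∑ v ∈ I, p v = ∑ v ∈ I \ J, p v + ∑ v ∈ I ∩ J, p v := by
    rw [add_comm]
    exact (Finset.sum_inter_add_sum_sdiff I J p).symm
  have h3 : ∑ v ∈ J, p v = ∑ v ∈ J \ I, p v + ∑ v ∈ I ∩ J, p v := by
    rw [Finset.inter_comm, add_comm]
    exact (Finset.sum_inter_add_sum_sdiff J I p).symm
  have h5 : Disjoint (I \ J) (J \ I) := by
    rw [Finset.disjoint_left]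
    intro x hx hx'
    rw [Finset.mem_sdiff] at hx hx'
    exact hx.2 hx'.1
  rw [show symmDiff I J = (I \ J) ∪ (J \ I) from rfl, Finset.sum_union h5, h1, h3]
  have h6 := hD (∑ v ∈ I ∩ J, p v)
  calc ∑ v ∈ I \ J, p v + ∑ v ∈ J \ I, p v
      = ∑ v ∈ I \ J, p v + ∑ v ∈ J \ I, p v + 0 := by rw [add_zero]
    _ = ∑ v ∈ I \ J, p v + ∑ v ∈ J \ I, p v + (∑ v ∈ I ∩ J, p v + ∑ v ∈ I ∩ J, p v) := by rw [h6]
    _ = _ := by abel

theorem sum_symmDiffF_real {ι : Type} [DecidableEq ι] (w : ι → ℝ) (I J : Finset ι) :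
    ∑ x ∈ symmDiff I J, w x = ∑ x ∈ I, w x + ∑ x ∈ J, w x - 2 * ∑ x ∈ I ∩ J, w x := by
  have h1 : ∑ v ∈ I, w v = ∑ v ∈ I \ J, w v + ∑ v ∈ I ∩ J, w v := by
    rw [add_comm]
    exact (Finset.sum_inter_add_sum_sdiff I J w).symm
  have h3 : ∑ v ∈ J, w v = ∑ v ∈ J \ I, w v + ∑ v ∈ I ∩ J, w v := by
    rw [Finset.inter_comm, add_comm]
    exact (Finset.sum_inter_add_sum_sdiff J I w).symm
  have h5 : Disjoint (I \ J) (J \ I) := by
    rw [Finset.disjoint_left]
    intro x hx hx'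
    rw [Finset.mem_sdiff] at hx hx'
    exact hx.2 hx'.1
  rw [show symmDiff I J = (I \ J) ∪ (J \ I) from rfl, Finset.sum_union h5, h1, h3]
  ring

/-- The finite configuration: `n1` depends only on `κ`. -/
theorem cfg_fin (κ : ℕ) (hκ : 1 ≤ κ) : ∃ n1 : ℕ, ∀ (D : Type) [AddCommGroup D],
    (∀ a : D, a + a = 0) → ∀ (R : PowerSeries ℂ) (lam : D → ℝ) (f : D → PowerSeries ℂ)
      (k : D → ℕ) (d : D) (p : Fin n1 → D) (lam0 lam1 : ℝ) (w : Fin n1 → ℝ),
      coeff 0 R = 1 → k d = κ → Function.Injective w →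
      (∀ I : Finset (Fin n1), lam (∑ i ∈ I, p i) = lam0 + ∑ i ∈ I, w i) →
      (∀ I : Finset (Fin n1), lam (d + ∑ i ∈ I, p i) = lam1 + ∑ i ∈ I, w i) →
      (∀ a ∈ TS d p, W92892c.IsType R⁻¹ ((-lam a : ℝ) : ℂ) (f a)) →
      (∀ I : Finset (Fin n1), I.Nonempty → k (∑ i ∈ I, p i) = 0 ∧ k (d + ∑ i ∈ I, p i) = 0 ∧
        ∑ i ∈ I, p i ≠ 0 ∧ ∑ i ∈ I, p i ≠ d) →
      (∀ a ∈ TS d p, ∀ b ∈ TS d p, ∀ c ∈ TS d p, a ≠ b → a ≠ c → b ≠ c →
        coeff (k a + k b + k c + k (a + b + c)) (f a * f b * f c * f (a + b + c)) =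
          coeff (k a) (f a) * coeff (k b) (f b) * coeff (k c) (f c) *
            coeff (k (a + b + c)) (f (a + b + c))) → False := by
  classical
  obtain ⟨m, hm⟩ : ∃ m, m = (κ + 1) ^ 2 + 1 := ⟨_, rfl⟩
  obtain ⟨q, hq⟩ : ∃ q, q = 2 * ((κ / 2 + 1) * (κ + 1) ^ 2) := ⟨_, rfl⟩
  have hq2 : 2 ≤ q := by
    rw [hq]
    have : 1 ≤ (κ / 2 + 1) * (κ + 1) ^ 2 := Nat.succ_le_of_lt (by positivity)
    omega
  obtain ⟨n, hn⟩ := (count_unif (m := m) hκ hq).exists
  refine ⟨n * q + m, ?_⟩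
  intro D _ hD R lam f k d p lam0 lam1 w hR hd hw hlam0 hlam1 htype hgood hfour
  have hGi : coeff 0 R⁻¹ = 1 := by
    rw [PowerSeries.coeff_zero_eq_constantCoeff_apply] at hR ⊢
    rw [PowerSeries.constantCoeff_inv, hR, inv_one]
  have hGG : coeff 0 (R⁻¹ * R⁻¹) = 1 := by
    rw [PowerSeries.coeff_zero_eq_constantCoeff_apply] at hGi ⊢
    rw [map_mul, hGi, one_mul]
  have hmem0 : ∀ I : Finset (Fin (n * q + m)), ∑ i ∈ I, p i ∈ TS d p := fun I => ⟨I, Or.inl rfl⟩
  have hmem1 : ∀ I : Finset (Fin (n * q + m)), d + ∑ i ∈ I, p i ∈ TS d p :=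
    fun I => ⟨I, Or.inr rfl⟩
  have hdmem : d ∈ TS d p := ⟨∅, Or.inr (by simp)⟩
  have hcz : ∀ a ∈ TS d p, coeff 0 (f a) = 1 := fun a ha =>
    W92892c.IsType.coeff_zero hGi (htype a ha)
  -- the table of primes
  let c : Fin n → Fin q → Fin (n * q + m) := fun i r => Fin.castAdd m (finProdFinEquiv (i, r))
  have hc : ∀ i r i' r', c i r = c i' r' → i = i' ∧ r = r' := by
    intro i r i' r' h
    have h2 := finProdFinEquiv.injective (Fin.castAdd_injective _ _ h)
    exact ⟨congrArg Prod.fst h2, congrArg Prod.snd h2⟩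
  let b : Fin m → Fin (n * q + m) := fun j => Fin.natAdd (n * q) j
  have hb : Function.Injective b := Fin.natAdd_injective _ _
  have hbc : ∀ j i r, b j ≠ c i r := by
    intro j i r h
    have h1 := congrArg Fin.val h
    simp only [b, c, Fin.val_natAdd, Fin.val_castAdd] at h1
    have h2 := (finProdFinEquiv (i, r)).2
    omega
  let I : Fin n → Finset (Fin (n * q + m)) := fun i => Finset.univ.image (c i)
  let J : (Fin n → Fin q) → Finset (Fin (n * q + m)) := fun h =>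
    Finset.univ.image fun i => c i (h i)
  have hIJ : ∀ i h, I i ∩ J h = {c i (h i)} := by
    intro i h
    ext x
    simp only [I, J, Finset.mem_inter, Finset.mem_image, Finset.mem_univ, true_and,
      Finset.mem_singleton]
    constructor
    · rintro ⟨⟨r, rfl⟩, ⟨i', hi'⟩⟩
      obtain ⟨h1, h2⟩ := hc _ _ _ _ hi'
      rw [← h2, h1]
    · rintro rfl
      exact ⟨⟨_, rfl⟩, ⟨i, rfl⟩⟩
  let S : Fin n → D := fun i => ∑ x ∈ I i, p x
  let S' : (Fin n → Fin q) → D := fun h => ∑ x ∈ J h, p x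
  have hSS : ∀ i h, S i + S' h = ∑ x ∈ symmDiff (I i) (J h), p x := fun i h =>
    (sum_symmDiffF hD p _ _).symm
  have hbI : ∀ j i, b j ∉ I i := by
    intro j i hmem
    obtain ⟨r, -, hr⟩ := Finset.mem_image.1 hmem
    exact hbc j i r hr.symm
  have hbJ : ∀ j h, b j ∉ J h := by
    intro j h hmem
    obtain ⟨i, -, hr⟩ := Finset.mem_image.1 hmem
    exact hbc j i _ hr.symm
  have hbS : ∀ j i, p (b j) + S i = ∑ x ∈ insert (b j) (I i), p x := fun j i =>
    (Finset.sum_insert (hbI j i)).symm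
  have hbS' : ∀ j h, p (b j) + S' h = ∑ x ∈ insert (b j) (J h), p x := fun j h =>
    (Finset.sum_insert (hbJ j h)).symm
  have good1 : ∀ j i, k (p (b j) + S i) = 0 ∧ k (d + (p (b j) + S i)) = 0 ∧
      p (b j) + S i ≠ 0 ∧ p (b j) + S i ≠ d := by
    intro j i
    rw [hbS]
    exact hgood _ ⟨b j, Finset.mem_insert_self _ _⟩
  have good2 : ∀ j h, k (p (b j) + S' h) = 0 ∧ k (d + (p (b j) + S' h)) = 0 ∧
      p (b j) + S' h ≠ 0 ∧ p (b j) + S' h ≠ d := by
    intro j h
    rw [hbS']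
    exact hgood _ ⟨b j, Finset.mem_insert_self _ _⟩
  have good3 : ∀ i h, k (S i + S' h) = 0 ∧ k (d + (S i + S' h)) = 0 ∧ S i + S' h ≠ 0 ∧
      S i + S' h ≠ d := by
    intro i h
    rw [hSS]
    refine hgood _ ?_
    obtain ⟨r, hr⟩ : ∃ r : Fin q, r ≠ h i := by
      have : Nontrivial (Fin q) := Fin.nontrivial_iff_two_le.2 hq2
      exact exists_ne (h i)
    refine ⟨c i r, ?_⟩
    rw [Finset.mem_symmDiff]
    refine Or.inl ⟨Finset.mem_image_of_mem _ (Finset.mem_univ _), ?_⟩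
    intro hmem
    have h1 : c i r ∈ I i ∩ J h :=
      Finset.mem_inter.2 ⟨Finset.mem_image_of_mem _ (Finset.mem_univ _), hmem⟩
    rw [hIJ, Finset.mem_singleton] at h1
    exact hr (hc _ _ _ _ h1).2
  have mem1 : ∀ j i, p (b j) + S i ∈ TS d p := fun j i => by rw [hbS]; exact hmem0 _
  have mem2 : ∀ j h, d + (p (b j) + S' h) ∈ TS d p := fun j h => by rw [hbS']; exact hmem1 _
  have mem3 : ∀ i h, S i + S' h ∈ TS d p := fun i h => by rw [hSS]; exact hmem0 _
  -- apply the counting lemma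
  refine hn R⁻¹ (R⁻¹ * R⁻¹) (f d) (coeff κ (f d)) hGi hGG (hcz d hdmem)
    (fun i j => f (p (b j) + S i)) (fun h j => f (d + (p (b j) + S' h)))
    (fun i h => f (S i + S' h)) (fun i => ((-(lam0 + ∑ x ∈ I i, w x) : ℝ) : ℂ))
    (fun h => ((∑ x ∈ J h, w x : ℝ) : ℂ)) (fun i r => ((2 * w (c i r) : ℝ) : ℂ))
    (fun i h j => ((-lam (p (b j) + S i) : ℝ) : ℂ) + ((-lam (d + (p (b j) + S' h)) : ℝ) : ℂ))
    ?_ ?_ ?_ ?_ ?_
  · intro i r r' hrr
    have h1 : (2 * w (c i r) : ℝ) = 2 * w (c i r') := Complex.ofReal_injective hrr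
    have h2 : c i r = c i r' := hw (by linarith)
    exact (hc _ _ _ _ h2).2
  · intro i h j
    exact W92892cH53.IsType.mul (htype _ (mem1 j i)) (htype _ (mem2 j h))
  · intro i h
    rw [Finset.card_image_of_injective, Finset.card_univ, Fintype.card_fin, hm]
    · exact Nat.lt_succ_self _
    · intro j j' hjj
      have h1 : (((-lam (p (b j) + S i) + -lam (d + (p (b j) + S' h)) : ℝ)) : ℂ) =
          ((-lam (p (b j') + S i) + -lam (d + (p (b j') + S' h)) : ℝ) : ℂ) := by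
        push_cast
        push_cast at hjj
        exact hjj
      have h2 := Complex.ofReal_injective h1
      rw [hbS, hbS, hbS', hbS', hlam0, hlam0, hlam1, hlam1, Finset.sum_insert (hbI j i),
        Finset.sum_insert (hbI j' i), Finset.sum_insert (hbJ j h),
        Finset.sum_insert (hbJ j' h)] at h2
      exact hb (hw (by linarith))
  · intro i h
    have h1 := htype _ (mem3 i h)
    have h2 : (((-(lam0 + ∑ x ∈ I i, w x) : ℝ) : ℂ) - ((∑ x ∈ J h, w x : ℝ) : ℂ) +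
        ((2 * w (c i (h i)) : ℝ) : ℂ)) = ((-lam (S i + S' h) : ℝ) : ℂ) := by
      rw [hSS, hlam0, sum_symmDiffF_real, hIJ, Finset.sum_singleton]
      push_cast
      ring
    rw [h2]
    exact h1
  · intro i h j
    obtain ⟨a1, -, -, a4⟩ := good1 j i
    obtain ⟨-, b2, b3, -⟩ := good2 j h
    obtain ⟨c1, -, -, c4⟩ := good3 i h
    have hsum : p (b j) + S i + (d + (p (b j) + S' h)) + (S i + S' h) = d := by
      have e1 : p (b j) + S i + (d + (p (b j) + S' h)) + (S i + S' h) =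
          d + (p (b j) + p (b j)) + (S i + S i) + (S' h + S' h) := by abel
      rw [e1, hD, hD, hD, add_zero, add_zero, add_zero]
    have n1 : p (b j) + S i ≠ d + (p (b j) + S' h) := by
      intro h1
      apply c4
      have h2 : S i = d + S' h := by
        have : p (b j) + S i = p (b j) + (d + S' h) := by rw [h1]; abel
        exact add_left_cancel this
      rw [h2, add_assoc, hD, add_zero]
    have n2 : p (b j) + S i ≠ S i + S' h := by
      intro h1
      apply b3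
      have h2 : p (b j) = S' h := by
        have : p (b j) + S i = S' h + S i := by rw [h1]; abel
        exact add_right_cancel this
      rw [h2, hD]
    have n3 : d + (p (b j) + S' h) ≠ S i + S' h := by
      intro h1
      apply a4
      have h2 : d + p (b j) = S i := by
        have : d + p (b j) + S' h = S i + S' h := by rw [← h1]; abel
        exact add_right_cancel this
      rw [← h2, show p (b j) + (d + p (b j)) = d + (p (b j) + p (b j)) by abel, hD, add_zero]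
    have h4 := hfour _ (mem1 j i) _ (mem2 j h) _ (mem3 i h) n1 n2 n3
    rw [hsum, a1, b2, c1, hd, hcz _ (mem1 j i), hcz _ (mem2 j h), hcz _ (mem3 i h), one_mul,
      one_mul, one_mul, zero_add, zero_add, zero_add] at h4
    rw [← h4]
    congr 1
    ring

end W92892cX32
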