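import Pool.Agent.W_92892c_x32.Lev
import Pool.Agent.W_92892c_x32.CfgF

/-!
Abstract explicit finite form (MP_92892c_nt).
-/

namespace W92892cX32

open Finset PowerSeries Filter W92892cH85

/-- Choice of good indices. -/
theorem sel (n1 M : ℕ) {n2 : ℕ} (h : n1 + 2 * M ^ 3 * n1 ≤ n2) (bad : Bool → Finset (Fin n2) → ℕ)
    (hcard : ∀ e, (Finset.univ.filter fun I : Finset (Fin n2) =>
      I.card ≤ n1 ∧ bad e I ≠ 0).card ≤ M ^ 3) :
    ∃ sg : Fin n1 ↪ Fin n2, ∀ e (I : Finset (Fin n1)), I.Nonempty → bad e (I.map sg) = 0 := by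
  classical
  let Bd : Bool → Finset (Finset (Fin n2)) := fun e =>
    Finset.univ.filter fun I : Finset (Fin n2) => I.card ≤ n1 ∧ bad e I ≠ 0
  let X : Finset (Fin n2) := (Finset.univ : Finset Bool).biUnion fun e => (Bd e).biUnion id
  have hX : X.card ≤ 2 * M ^ 3 * n1 := by
    refine (Finset.card_biUnion_le).trans ?_
    have h1 : ∀ e ∈ (Finset.univ : Finset Bool), ((Bd e).biUnion id).card ≤ M ^ 3 * n1 := by
      intro e _
      refine (Finset.card_biUnion_le).trans ?_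
      have h2 : ∀ I ∈ Bd e, (id I : Finset (Fin n2)).card ≤ n1 := by
        intro I hI
        exact (Finset.mem_filter.1 hI).2.1
      refine (Finset.sum_le_card_nsmul _ _ n1 h2).trans ?_
      rw [smul_eq_mul]
      exact Nat.mul_le_mul_right _ (hcard e)
    refine (Finset.sum_le_card_nsmul _ _ (M ^ 3 * n1) h1).trans ?_
    rw [Finset.card_univ, Fintype.card_bool, smul_eq_mul]
    exact le_of_eq (by ring)
  have hc : n1 ≤ (Xᶜ : Finset (Fin n2)).card := by
    rw [Finset.card_compl, Fintype.card_fin]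
    omega
  obtain ⟨Y, hY, hYc⟩ := Finset.exists_subset_card_eq hc
  let e1 : Fin n1 ↪ Fin n2 := (Y.orderEmbOfFin hYc).toEmbedding
  refine ⟨e1, ?_⟩
  intro e I hI
  by_contra hne
  obtain ⟨i, hi⟩ := hI
  have h1 : I.map e1 ∈ Bd e := by
    refine Finset.mem_filter.2 ⟨Finset.mem_univ _, ?_, hne⟩
    rw [Finset.card_map]
    exact (Finset.card_le_univ I).trans (by rw [Fintype.card_fin])
  have h2 : e1 i ∈ X := by
    refine Finset.mem_biUnion.2 ⟨e, Finset.mem_univ _, Finset.mem_biUnion.2 ⟨I.map e1, h1, ?_⟩⟩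
    exact Finset.mem_map_of_mem _ hi
  have h3 : e1 i ∈ Y := Finset.orderEmbOfFin_mem Y hYc i
  exact (Finset.mem_compl.1 (hY h3)) h2

theorem fin_abs (rb : ℕ → ℕ) : ∃ n : ℕ, ∀ (D : Type) [AddCommGroup D],
    (∀ a : D, a + a = 0) → ∀ (R : PowerSeries ℂ) (lam : D → ℝ) (f : D → PowerSeries ℂ)
      (k : D → ℕ) (d : D) (n2 : ℕ) (p : Fin n2 → D) (lam0 lam1 : ℝ) (w : Fin n2 → ℝ)
      (m : ℕ) (b : Fin m → D),
      n ≤ n2 → n ≤ (Finset.univ.image fun j => lam (b j)).card → coeff 0 R = 1 →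
      (Function.Injective fun I : Finset (Fin n2) => ∑ i ∈ I, w i) →
      (∀ I : Finset (Fin n2), lam (∑ i ∈ I, p i) = lam0 + ∑ i ∈ I, w i) →
      (∀ I : Finset (Fin n2), lam (d + ∑ i ∈ I, p i) = lam1 + ∑ i ∈ I, w i) →
      (∀ a ∈ TS d p, W92892c.IsType R⁻¹ ((-lam a : ℝ) : ℂ) (f a)) →
      (∀ I : Finset (Fin n2), I.Nonempty → ∑ i ∈ I, p i ≠ 0 ∧ ∑ i ∈ I, p i ≠ d) →
      (∀ I : Finset (Fin n2), k (∑ i ∈ I, p i) ≤ rb I.card ∧ k (d + ∑ i ∈ I, p i) ≤ rb I.card) →
      (∀ j, W92892c.IsType R⁻¹ ((-lam (b j) : ℝ) : ℂ) (f (b j)) ∧ k (b j) = 0) →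
      (∀ a ∈ TS d p, ∀ j, a ≠ b j → coeff (k a + k (b j)) (f a * f (b j)) =
        coeff (k a) (f a) * coeff (k (b j)) (f (b j))) →
      (∀ a ∈ TS d p, ∀ b ∈ TS d p, ∀ c ∈ TS d p, a ≠ b → a ≠ c → b ≠ c →
        coeff (k a + k b + k c + k (a + b + c)) (f a * f b * f c * f (a + b + c)) =
          coeff (k a) (f a) * coeff (k b) (f b) * coeff (k c) (f c) *
            coeff (k (a + b + c)) (f (a + b + c))) → k d = 0 := by
  classical
  have hcfg := fun κ : ℕ => fun hκ : 1 ≤ κ => cfg_fin κ hκ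
  choose! n1 hn1 using hcfg
  let M : ℕ → ℕ := fun κ => (Finset.range (n1 κ + 1)).sup rb
  let N : ℕ → ℕ := fun κ => n1 κ + 2 * (M κ) ^ 3 * n1 κ + (M κ + 1) ^ 2 + 1
  refine ⟨(Finset.range (rb 0 + 1)).sup N, ?_⟩
  intro D _ hD R lam f k d n2 p lam0 lam1 w m b hn2 hm hR hw hlam0 hlam1 htype hne hk hb hpair hfour
  by_contra hk0
  obtain ⟨κ, hκd⟩ : ∃ κ, κ = k d := ⟨_, rfl⟩
  have hκ : 1 ≤ κ := by omega
  have hκr : κ ≤ rb 0 := by
    have h1 := (hk ∅).2
    rw [Finset.sum_empty, add_zero, Finset.card_empty] at h1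
    omega
  have hN : N κ ≤ (Finset.range (rb 0 + 1)).sup N :=
    Finset.le_sup (f := N) (Finset.mem_range.2 (by omega))
  have hNn : N κ ≤ n2 := hN.trans hn2
  have hNm : N κ ≤ (Finset.univ.image fun j => lam (b j)).card := hN.trans hm
  have hNdef : N κ = n1 κ + 2 * (M κ) ^ 3 * n1 κ + (M κ + 1) ^ 2 + 1 := rfl
  have hGi : coeff 0 R⁻¹ = 1 := by
    rw [PowerSeries.coeff_zero_eq_constantCoeff_apply] at hR ⊢
    rw [PowerSeries.constantCoeff_inv, hR, inv_one]
  let el : Bool → Finset (Fin n2) → D := fun e I => if e then d + ∑ i ∈ I, p i else ∑ i ∈ I, p i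
  have hel : ∀ e I, el e I ∈ TS d p := by
    intro e I
    cases e
    · exact ⟨I, Or.inl rfl⟩
    · exact ⟨I, Or.inr rfl⟩
  have hlamel : ∀ e I, lam (el e I) = (if e then lam1 else lam0) + ∑ i ∈ I, w i := by
    intro e I
    cases e
    · exact hlam0 I
    · exact hlam1 I
  have hkel : ∀ e I, k (el e I) ≤ rb I.card := by
    intro e I
    cases e
    · exact (hk I).1
    · exact (hk I).2
  let bad : Bool → Finset (Fin n2) → ℕ := fun e I => k (el e I)
  have hbadM : ∀ e (I : Finset (Fin n2)), I.card ≤ n1 κ → bad e I ≤ M κ := by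
    intro e I hI
    exact (hkel e I).trans (Finset.le_sup (f := rb) (Finset.mem_range.2 (by omega)))
  have himg : (Finset.univ.image fun j => ((-lam (b j) : ℝ) : ℂ)).card =
      (Finset.univ.image fun j => lam (b j)).card := by
    have h1 : (Finset.univ.image fun j => ((-lam (b j) : ℝ) : ℂ)) =
        (Finset.univ.image fun j => lam (b j)).image fun x : ℝ => ((-x : ℝ) : ℂ) := by
      rw [Finset.image_image]
      rfl
    rw [h1, Finset.card_image_of_injective]
    intro x y hxy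
    have h2 := Complex.ofReal_injective hxy
    linarith
  have hlevel : ∀ e, ∀ l ∈ Finset.Icc 1 (M κ),
      (Finset.univ.filter fun I : Finset (Fin n2) => I.card ≤ n1 κ ∧ bad e I = l).card ≤
        (M κ) ^ 2 := by
    intro e l hl
    obtain ⟨hl1, hl2⟩ := Finset.mem_Icc.1 hl
    have hinj : Set.InjOn (fun I : Finset (Fin n2) => ((-lam (el e I) : ℝ) : ℂ))
        (Finset.univ.filter fun I : Finset (Fin n2) => I.card ≤ n1 κ ∧ bad e I = l) := by
      intro I _ I' _ hII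
      have h2 := Complex.ofReal_injective hII
      rw [hlamel, hlamel] at h2
      apply hw
      show ∑ i ∈ I, w i = ∑ i ∈ I', w i
      linarith
    rw [← Finset.card_image_of_injOn hinj]
    refine (lev hl1 hGi (fun j => ((-lam (b j) : ℝ) : ℂ)) (fun j => f (b j))
      (fun j => (hb j).1) ?_ _ ?_).trans (Nat.pow_le_pow_left hl2 2)
    · rw [himg]
      have h3 : (l + 1) ^ 2 ≤ (M κ + 1) ^ 2 := Nat.pow_le_pow_left (by omega) 2
      omega
    · intro x hx
      obtain ⟨I, hI, rfl⟩ := Finset.mem_image.1 hx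
      obtain ⟨-, -, hIl⟩ := Finset.mem_filter.1 hI
      refine ⟨f (el e I), htype _ (hel e I), fun j => ?_⟩
      have hkl : k (el e I) = l := hIl
      have h4 : el e I ≠ b j := by
        intro h5
        have h6 := (hb j).2
        rw [← h5, hkl] at h6
        omega
      have h7 := hpair _ (hel e I) j h4
      rw [(hb j).2, hkl, add_zero, W92892c.IsType.coeff_zero hGi (hb j).1, mul_one] at h7
      exact h7
  have hcard : ∀ e, (Finset.univ.filter fun I : Finset (Fin n2) =>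
      I.card ≤ n1 κ ∧ bad e I ≠ 0).card ≤ (M κ) ^ 3 := by
    intro e
    have hsub : (Finset.univ.filter fun I : Finset (Fin n2) => I.card ≤ n1 κ ∧ bad e I ≠ 0) ⊆
        (Finset.Icc 1 (M κ)).biUnion fun l =>
          Finset.univ.filter fun I : Finset (Fin n2) => I.card ≤ n1 κ ∧ bad e I = l := by
      intro I hI
      obtain ⟨-, h1, h2⟩ := Finset.mem_filter.1 hI
      refine Finset.mem_biUnion.2 ⟨bad e I, Finset.mem_Icc.2
        ⟨Nat.one_le_iff_ne_zero.2 h2, hbadM e I h1⟩, ?_⟩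
      exact Finset.mem_filter.2 ⟨Finset.mem_univ _, h1, rfl⟩
    refine (Finset.card_le_card hsub).trans (Finset.card_biUnion_le.trans ?_)
    refine (Finset.sum_le_card_nsmul _ _ _ (hlevel e)).trans ?_
    rw [Nat.card_Icc, Nat.add_sub_cancel, smul_eq_mul]
    exact le_of_eq (by ring)
  obtain ⟨sg, hsg⟩ := sel (n1 κ) (M κ) (by omega) bad hcard
  have hsum : ∀ I : Finset (Fin (n1 κ)), ∑ i ∈ I, p (sg i) = ∑ i ∈ I.map sg, p i := fun I =>
    (Finset.sum_map I sg p).symm
  have hsumw : ∀ I : Finset (Fin (n1 κ)), ∑ i ∈ I, w (sg i) = ∑ i ∈ I.map sg, w i := fun I =>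
    (Finset.sum_map I sg w).symm
  have hTS : ∀ a ∈ TS d (fun i => p (sg i)), a ∈ TS d p := by
    rintro a ⟨I, hI | hI⟩
    · exact ⟨I.map sg, Or.inl (by rw [hI, hsum])⟩
    · exact ⟨I.map sg, Or.inr (by rw [hI, hsum])⟩
  refine hn1 κ hκ D hD R lam f k d (fun i => p (sg i)) lam0 lam1 (fun i => w (sg i)) hR hκd.symm
    ?_ ?_ ?_ ?_ ?_ ?_
  · intro i j hij
    have h1 : ({sg i} : Finset (Fin n2)) = {sg j} := by
      apply hw
      show ∑ i ∈ {sg i}, w i = ∑ i ∈ {sg j}, w i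
      rw [Finset.sum_singleton, Finset.sum_singleton]
      exact hij
    exact sg.injective (Finset.singleton_injective h1)
  · intro I
    rw [hsum, hsumw]
    exact hlam0 _
  · intro I
    rw [hsum, hsumw]
    exact hlam1 _
  · intro a ha
    exact htype a (hTS a ha)
  · intro I hI
    have h1 : (I.map sg).Nonempty := hI.map
    rw [hsum]
    exact ⟨hsg false I hI, hsg true I hI, (hne _ h1).1, (hne _ h1).2⟩
  · intro a ha b hb c hc
    exact hfour a (hTS a ha) b (hTS b hb) c (hTS c hc)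

end W92892cX32
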