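import Pool.Agent.W_92892c_h85.LemP
import Pool.Agent.W_92892c_h28.Step1

/-!
Few elements of a given level (MP_92892c_nt, explicit finite form).
-/

namespace W92892cX32

open Finset PowerSeries W92892cH85

theorem coeff_mul_top (n : ℕ) (F g : PowerSeries ℂ) :
    coeff (n + 1) (F * g) =
      ∑ l : Fin (n + 1), coeff (n + 1 - (l : ℕ)) g * coeff (l : ℕ) F +
        coeff (n + 1) F * coeff 0 g := by
  rw [PowerSeries.coeff_mul, Finset.Nat.sum_antidiagonal_eq_sum_range_succ_mk,
    Finset.sum_range_succ, Finset.sum_range]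
  simp only [Nat.sub_self]
  congr 1
  exact Finset.sum_congr rfl fun l _ => mul_comm _ _

/-- Drop the coordinate `0` and reverse. -/
noncomputable def dropT (n : ℕ) : (Fin (n + 1 + 1) → ℂ) →ₗ[ℂ] (Fin (n + 1) → ℂ) :=
  LinearMap.pi fun i => LinearMap.proj (⟨n + 1 - (i : ℕ), by omega⟩ : Fin (n + 1 + 1))

theorem lev {κ : ℕ} (hκ : 1 ≤ κ) {G : PowerSeries ℂ} (hG : coeff 0 G = 1) {m : ℕ} (y : Fin m → ℂ)
    (g : Fin m → PowerSeries ℂ) (hg : ∀ j, W92892c.IsType G (y j) (g j))
    (hy : (κ + 1) ^ 2 < (Finset.univ.image y).card) (s : Finset ℂ)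
    (hs : ∀ x ∈ s, ∃ F, W92892c.IsType G x F ∧ ∀ j, coeff κ (F * g j) = coeff κ F) :
    s.card ≤ κ ^ 2 := by
  classical
  obtain ⟨n, hn⟩ : ∃ n, κ = n + 1 := ⟨κ - 1, by omega⟩
  subst hn
  set U : Submodule ℂ (Fin (n + 1 + 1) → ℂ) :=
    Submodule.span ℂ (Set.range fun j => tr (n + 1) (g j)) with hU
  have h1 : n + 1 + 1 - (n + 1) / 2 ≤ Module.finrank ℂ U := span_ge hG (n + 1) m y g hg hy
  have h2 : Module.finrank ℂ (U.map (dropT n)) +
      Module.finrank ℂ (LinearMap.ker ((dropT n).domRestrict U)) = Module.finrank ℂ U := by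
    rw [← LinearMap.range_domRestrict]
    exact LinearMap.finrank_range_add_finrank_ker _
  have h3 : Module.finrank ℂ (LinearMap.ker ((dropT n).domRestrict U)) ≤ 1 := by
    let e : LinearMap.ker ((dropT n).domRestrict U) →ₗ[ℂ] ℂ :=
      (LinearMap.proj (0 : Fin (n + 1 + 1))).comp (U.subtype.comp (Submodule.subtype _))
    have he : Function.Injective e := by
      have hz : ∀ v : LinearMap.ker ((dropT n).domRestrict U), ∀ j : Fin (n + 1 + 1),
          (j : ℕ) ≠ 0 → (v : U).1 j = 0 := by
        intro v j hj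
        have hv1 : dropT n (v : U).1 = 0 := v.2
        have h5 := congrFun hv1 ⟨n + 1 - (j : ℕ), by omega⟩
        have h6 : (v : U).1 ⟨n + 1 - (n + 1 - (j : ℕ)), by omega⟩ = 0 := h5
        have h7 : (⟨n + 1 - (n + 1 - (j : ℕ)), by omega⟩ : Fin (n + 1 + 1)) = j := by
          apply Fin.ext
          show n + 1 - (n + 1 - (j : ℕ)) = j
          have := j.2
          omega
        rw [h7] at h6
        exact h6
      intro v v' hv
      have hv0 : (v : U).1 0 = (v' : U).1 0 := hv
      apply Subtype.ext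
      apply Subtype.ext
      funext j
      show (v : U).1 j = (v' : U).1 j
      by_cases hj : (j : ℕ) = 0
      · have : j = 0 := Fin.ext hj
        rw [this]
        exact hv0
      · rw [hz v j hj, hz v' j hj]
    have h4 := LinearMap.finrank_le_finrank_of_injective he
    rwa [Module.finrank_self] at h4
  refine lemP hG n (U.map (dropT n)) (by omega) s ?_
  intro x hx
  obtain ⟨F, hF, hFg⟩ := hs x hx
  refine ⟨F, hF, ?_⟩
  rintro _ ⟨u, hu, rfl⟩
  have key : ∀ u ∈ U, ∑ l : Fin (n + 1), dropT n u l * coeff (l : ℕ) F = 0 := by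
    intro u hu
    rw [hU] at hu
    induction hu using Submodule.span_induction with
    | mem v hv =>
      obtain ⟨j, rfl⟩ := hv
      have h5 := hFg j
      rw [coeff_mul_top, W92892c.IsType.coeff_zero hG (hg j), mul_one] at h5
      have h6 : ∑ l : Fin (n + 1), coeff (n + 1 - (l : ℕ)) (g j) * coeff (l : ℕ) F = 0 := by
        simpa using h5
      exact h6
    | zero => simp
    | add a b _ _ ha hb =>
      rw [map_add]
      simp only [Pi.add_apply, add_mul, Finset.sum_add_distrib]
      rw [ha, hb, add_zero]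
    | smul c a _ ha =>
      rw [map_smul]
      simp only [Pi.smul_apply, smul_eq_mul, mul_assoc]
      rw [← Finset.mul_sum, ha, mul_zero]
  exact key u hu

end W92892cX32
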